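import Pool.Agent.H15.G.R_seed8.TH545.Nag.Nf

/-! A right triangle is cut by a line through its top vertex into a right triangle for `k` points of
multiplicity `q` and a triangle for `n` points of multiplicity `m`. -/

set_option autoImplicit false

namespace Pool.Agent.TH183.SC

open Finset Pool.Agent.TH181.NagM Pool.Agent.TH176.Nag

/-- the multiplicities `q` (`k` times) and `m` -/
def wt (ι κ : Type) (v : ℕ × ℕ) : ι ⊕ κ → ℕ := Sum.elim (fun _ => v.2) (fun _ => v.1)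

theorem sysPair (ι κ : Type) : NagSys (fun j (v : ℕ × ℕ) => (j * v.1, j * v.2))
    (fun v S => Emp (wt ι κ v) S) where
  mono h hS := h.mono hS
  comap h a b c d u v hd hS := h.comap a b c d u v hd hS
  flat0 h h' := Emp_flat0 h h'
  Q3 hN h := Emp_Q3 hN _ _ h
  pow {v S S'} k hk hS h := by
    have e : wt ι κ (k * v.1, k * v.2) = fun i => k * wt ι κ v i := by
      funext i
      rcases i with i | i <;> rfl
    rw [e] at h
    exact Pool.Agent.TH181.Nag.Emp_pow k hk hS h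

theorem Emp_reindex {ι κ : Type} (e : κ ≃ ι) {w : ι → ℕ} {S : Set (ℤ × ℤ)} (h : Emp w S) :
    Emp (fun j => w (e j)) S := by
  obtain ⟨K, _, _, x, y, hx, hy, hf⟩ := h
  refine ⟨K, inferInstance, inferInstance, fun j => x (e j), fun j => y (e j), fun j => hx _,
    fun j => hy _, fun f h1 h2 => hf f h1 fun i => ?_⟩
  have := h2 (e.symm i)
  simpa using this

/-- cutting a right triangle -/
theorem cutT {k n m q : ℕ} {ρ h : ℝ} (hρ : 0 < ρ) (hq : h < q) (hk : 1 ≤ k)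
    (h2 : ∀ α : ℝ, Emp (fun _ : Fin n => m) (Reg α (α + h * ρ) (-k) (k + ρ))) (α : ℝ) :
    Emp (wt (Fin k) (Fin n) (m, q)) (Reg α (α + h * (k + ρ)) 0 (k + ρ)) := by
  have hk' : (1 : ℝ) ≤ k := by exact_mod_cast hk
  obtain ⟨a, ha⟩ : ∃ a : ℝ, a = α - ⌈α⌉ := ⟨_, rfl⟩
  have ha0 : a ≤ 0 := by rw [ha]; linarith [Int.le_ceil α]
  have h1 : Emp (fun _ : Fin k => q) {m : ℤ × ℤ | 0 ≤ m.1 ∧ 0 ≤ m.2 ∧
      (m.1 : ℝ) + k * m.2 ≤ a + h * k} := by
    refine (Pool.Agent.TH819.NagA.Emp_final (fun _ : Fin k => q) a (a + h * k) 0 k le_rfl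
      (by positivity) (by simp) ?_).mono ?_
    · simp only [sum_const, card_univ, Fintype.card_fin, nsmul_eq_mul]
      nlinarith
    · rintro ⟨x, y⟩ ⟨hx, hy, hxy⟩
      simp only at hx hy hxy
      have hx' : (0 : ℝ) ≤ x := by exact_mod_cast hx
      refine ⟨hy, ?_, ?_⟩
      · simp only; linarith
      · simp only; linarith
  have h3 : Emp (fun _ : Fin n => m) {m : ℤ × ℤ | 0 ≤ m.1 ∧ 0 ≤ m.2 ∧
      a + h * k < (m.1 : ℝ) + k * m.2 ∧ (m.1 : ℝ) + (k + ρ) * m.2 ≤ a + h * (k + ρ)} := by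
    refine (h2 (a + h * k)).mono ?_
    rintro ⟨x, y⟩ ⟨hx, hy, hxy, hxy'⟩
    simp only at hx hy hxy hxy'
    refine ⟨hy, ?_, ?_⟩
    · simp only; linarith
    · simp only; linarith
  have hfin : ∀ s : ℝ, ({m : ℤ × ℤ | 0 ≤ m.1 ∧ 0 ≤ m.2 ∧ (m.1 : ℝ) + m.2 ≤ s}).Finite := by
    intro s
    refine (Pool.Agent.TH545.Nag.finite_tri ⌊s⌋₊).subset ?_
    rintro ⟨x, y⟩ ⟨hx, hy, hxy⟩
    simp only at hx hy hxy
    refine ⟨hx, hy, ?_⟩
    simp only
    have hs : 0 ≤ s := by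
      have h4 : (0 : ℝ) ≤ x := by exact_mod_cast hx
      have h5 : (0 : ℝ) ≤ y := by exact_mod_cast hy
      linarith
    have h6 : ((x + y : ℤ) : ℝ) ≤ s := by push_cast; exact hxy
    have h7 : x + y ≤ ⌊s⌋ := Int.le_floor.2 h6
    have h8 : ((⌊s⌋₊ : ℕ) : ℤ) = ⌊s⌋ := Int.natCast_floor_eq_floor hs
    rw [h8]
    exact h7
  have h4 := Pool.Agent.TH698.NagT3.Emp_cut
    ((hfin (a + h * k)).subset (by
      rintro ⟨x, y⟩ ⟨hx, hy, hxy⟩
      simp only at hx hy hxy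
      refine ⟨hx, hy, ?_⟩
      simp only
      have h5 : (0 : ℝ) ≤ y := by exact_mod_cast hy
      nlinarith))
    ((hfin (a + h * (k + ρ))).subset (by
      rintro ⟨x, y⟩ ⟨hx, hy, hxy, hxy'⟩
      simp only at hx hy hxy hxy'
      refine ⟨hx, hy, ?_⟩
      simp only
      have h5 : (0 : ℝ) ≤ y := by exact_mod_cast hy
      nlinarith))
    (fun m hm => ⟨hm.1, hm.2.1⟩) (fun m hm => ⟨hm.1, hm.2.1⟩) 1 (k : ℤ) (by
      rintro ⟨x, y⟩ ⟨-, -, hxy⟩ ⟨x', y'⟩ ⟨-, -, hxy', -⟩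
      simp only at hxy hxy' ⊢
      have h5 : (((1 : ℤ) * x + (k : ℤ) * y : ℤ) : ℝ) < (((1 : ℤ) * x' + (k : ℤ) * y' : ℤ) : ℝ) := by
        push_cast
        linarith
      exact_mod_cast h5) h1 h3
  refine h4.comap 1 0 0 1 (-⌈α⌉) 0 (by norm_num) ?_
  rintro ⟨x, y⟩ ⟨hy, hx, hxy⟩
  simp only at hx hy hxy
  have hy' : (0 : ℝ) ≤ y := by exact_mod_cast hy
  have h5 : ⌈α⌉ ≤ x := Int.ceil_le.2 (by linarith)
  have e1 : ((1 * x + 0 * y + -⌈α⌉ : ℤ) : ℝ) = x - ⌈α⌉ := by push_cast; ring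
  have e2 : ((0 * x + 1 * y + 0 : ℤ) : ℝ) = y := by push_cast; ring
  by_cases hc : (x : ℝ) - ⌈α⌉ + k * y ≤ a + h * k
  · left
    refine ⟨by simp only; omega, by simp only; omega, ?_⟩
    simp only
    rw [e1, e2]
    exact hc
  · right
    push Not at hc
    refine ⟨by simp only; omega, by simp only; omega, ?_, ?_⟩
    · simp only
      rw [e1, e2]
      exact hc
    · simp only
      rw [e1, e2, ha]
      linarith

end Pool.Agent.TH183.SC
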